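import Pool.Agent.Y142.SS.Stm
import Pool.Agent.Y142.ZI.Fields
import Pool.Agent.Y484.ZI.IntRes
import Pool.Agent.Y726.ZI.Cheb

/-!
Project Y142-SS, task LOC: Chebotarev's theorem with local Frobenius elements.
-/

set_option autoImplicit false

open Matrix Polynomial Filter Topology NumberField IsDedekindDomain
open Pool.Agent.Y142.ZO Pool.Agent.Y142.ZI

namespace Pool.Agent.Y708.SS.Loc

open Pool.Agent.Y142.SS

/-- conjugates of Frobenius elements -/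
theorem frobAt_conj {ℓ : ℕ} {σ : GK ℚ} (r : GK ℚ) (h : FrobAt ℓ σ) :
    FrobAt ℓ (r⁻¹ * σ * r) := by
  obtain ⟨Q, hQ, hl, hx⟩ := h
  have hs : Function.Surjective (MulSemiringAction.toRingHom (GK ℚ) (𝓞 QQ) r) := by
    intro y
    refine ⟨r⁻¹ • y, ?_⟩
    show r • r⁻¹ • y = y
    rw [smul_smul, mul_inv_cancel, one_smul]
  refine ⟨Ideal.comap (MulSemiringAction.toRingHom (GK ℚ) (𝓞 QQ) r) Q, ?_, ?_, fun x => ?_⟩
  · exact Ideal.comap_isMaximal_of_surjective _ hs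
  · rw [Ideal.mem_comap, map_natCast]
    exact hl
  · rw [Ideal.mem_comap]
    have h1 := hx (r • x)
    have h2 : (MulSemiringAction.toRingHom (GK ℚ) (𝓞 QQ) r) ((r⁻¹ * σ * r) • x - x ^ ℓ) =
        σ • (r • x) - (r • x) ^ ℓ := by
      show r • ((r⁻¹ * σ * r) • x - x ^ ℓ) = σ • (r • x) - (r • x) ^ ℓ
      rw [smul_sub, smul_pow', smul_smul, smul_smul]
      congr 2
      rw [mul_assoc, mul_inv_cancel_left]
    rw [h2]
    exact h1

/-- the field of the roots of `Q` is stable -/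
theorem Lf_stable (Q : ℚ[X]) (g : GK ℚ) {x : QQ} (hx : x ∈ Lf Q) : g x ∈ Lf Q := by
  have := normalQQ
  have h2 := (IntermediateField.normal_iff_forall_map_eq' (F := ℚ) (L := QQ) (K := Lf Q)).1
    (Lf_normal Q) (conv g)
  rw [← h2]
  exact ⟨x, hx, rfl⟩

/-- automorphisms which agree on the roots agree on the field of the roots -/
theorem eq_on_Lf {Q : ℚ[X]} (hQ : Q ≠ 0) (g g' : GK ℚ) (h : ∀ x : QQ, aeval x Q = 0 → g x = g' x)
    {x : QQ} (hx : x ∈ Lf Q) : g x = g' x := by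
  unfold Lf at hx
  induction hx using IntermediateField.adjoin_induction with
  | mem x hx => exact h x ((mem_rootSet_of_ne hQ).1 hx)
  | algebraMap q => rw [eq_ratCast, map_ratCast, map_ratCast]
  | add x y _ _ h1 h2 => rw [map_add, map_add, h1, h2]
  | inv x _ h1 => rw [map_inv₀, map_inv₀, h1]
  | mul x y _ _ h1 h2 => rw [map_mul, map_mul, h1, h2]

theorem dens_empty : Pool.Agent.Y142.ZI.DensityZero ∅ := by
  unfold Pool.Agent.Y142.ZI.DensityZero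
  have h : ∀ n : ℕ, (Nat.card {ℓ : ℕ // ℓ ≤ n ∧ ℓ ∈ (∅ : Set ℕ)} : ℝ) /
      (Nat.primeCounting n : ℝ) = 0 := by
    intro n
    have h1 : IsEmpty {ℓ : ℕ // ℓ ≤ n ∧ ℓ ∈ (∅ : Set ℕ)} := ⟨fun x => x.2.2⟩
    rw [Nat.card_of_isEmpty]
    simp
  simp only [h]
  exact tendsto_const_nhds

/-- **LOC** -/
theorem t (hCF : S_CF) : S_LOC := by
  intro M hM h b
  obtain ⟨α, hα, hint⟩ := Pool.Agent.Y484.ZI.prim M
  have hirr := minpoly.irreducible hint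
  have hQ0 : minpoly ℚ α ≠ 0 := minpoly.ne_zero hint
  have hML : M ≤ Lf (minpoly ℚ α) := by
    rw [hα, IntermediateField.adjoin_le_iff, Set.singleton_subset_iff]
    exact mem_Lf hQ0 (minpoly.aeval ℚ α)
  obtain ⟨b1, hb1⟩ := hCF (minpoly ℚ α) (minpoly.monic hint) hirr.separable
  generalize minpoly ℚ α = Q at hQ0 hML hb1
  obtain ⟨ℓ, hℓ, hp, -, σ₁, ⟨r, hr⟩, hF⟩ := Pool.Agent.Y726.ZI.pos (fixSub (Lf Q))
    (fixSub_normal _ (Lf_normal Q)) (fixSub_open _ (Lf_finite Q))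
    {g : GK ℚ | ∃ r : GK ℚ, ∀ x ∈ Lf Q, g x = (r * h * r⁻¹) x}
    ⟨h, 1, fun x _ => by rw [inv_one, mul_one, one_mul]⟩
    (by
      rintro g ⟨r, hr⟩ k
      refine ⟨k * r, fun x hx => ?_⟩
      have h1 := hr (k⁻¹ x) (Lf_stable Q k⁻¹ hx)
      rw [AlgEquiv.mul_apply, AlgEquiv.mul_apply, h1, _root_.mul_inv_rev]
      simp only [AlgEquiv.mul_apply])
    (by
      rintro g ⟨r, hr⟩ u hu
      refine ⟨r, fun x hx => ?_⟩
      rw [AlgEquiv.mul_apply, mem_fixSub.1 hu x hx]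
      exact hr x hx)
    ∅ dens_empty (max b b1)
  have : Fact ℓ.Prime := ⟨hp⟩
  obtain ⟨ι₁, τ, σ', hF', hτ, hσ'⟩ := hb1 ℓ (lt_of_le_of_lt (le_max_right _ _) hℓ) ⟨hp⟩ σ₁ hF
  refine ⟨ℓ, lt_of_le_of_lt (le_max_left _ _) hℓ, ⟨hp⟩, ι₁.comp (r : QQ →+* QQ), τ,
    r⁻¹ * σ' * r, frobAt_conj r hF', fun x => ?_, fun x hx => ?_⟩
  · show τ (ι₁ (r x)) = ι₁ (r ((r⁻¹ * σ' * r) x))
    rw [hτ, ← AlgEquiv.mul_apply r, mul_assoc, mul_inv_cancel_left]
    rfl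
  · have hx' : x ∈ Lf Q := hML hx
    have h1 : r x ∈ Lf Q := Lf_stable Q r hx'
    have h2 := eq_on_Lf hQ0 σ' σ₁ hσ' h1
    have h3 := hr (r x) h1
    rw [AlgEquiv.mul_apply, AlgEquiv.mul_apply, h2, h3]
    rw [← AlgEquiv.mul_apply, ← AlgEquiv.mul_apply]
    congr 1
    group

end Pool.Agent.Y708.SS.Loc
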