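import Pool.Agent.Y462.SS.St

/-!
# Finite-state automorphisms of bounded activity have finitely many rays
-/

set_option autoImplicit false

namespace Pool.Agent.Y708.SS

open Pool.Agent.Y462.SS

section

variable {X : Type} {g : Equiv.Perm (List X)}

/-- the section of `g` at `v` -/
def sec (g : Equiv.Perm (List X)) (v : List X) : List X → List X :=
  fun w => (g (v ++ w)).drop v.length

theorem sec_spec (hg : IsTree g) (v w : List X) : g (v ++ w) = g v ++ sec g v w := by
  obtain ⟨t, ht⟩ := hg.2 v w
  unfold sec
  rw [← ht, List.drop_left' (hg.1 v)]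

theorem sec_mem (hg : IsTree g) (v : List X) : sec g v ∈ Sections g :=
  ⟨v, fun w => sec_spec hg v w⟩

/-- depth of a section -/
def Dp (h : List X → List X) (n : ℕ) : Prop :=
  ∀ u w : List X, u.length = n → h (u ++ w) = h u ++ w

theorem depth_iff (hg : IsTree g) (v : List X) (n : ℕ) : DepthAt g v n ↔ Dp (sec g v) n := by
  unfold DepthAt Dp
  refine forall_congr' fun u => forall_congr' fun w => imp_congr Iff.rfl ?_
  rw [List.append_assoc, sec_spec hg v (u ++ w), sec_spec hg v u, List.append_assoc,
    List.append_cancel_left_eq]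

theorem depth_mono {v : List X} {n m : ℕ} (h : DepthAt g v n) (hm : n ≤ m) :
    DepthAt g v m := by
  intro u w hu
  have h1 : (u.take n).length = n := by
    rw [List.length_take]
    omega
  have h2 := h (u.take n) (u.drop n ++ w) h1
  have h3 := h (u.take n) (u.drop n) h1
  have e1 : v ++ u = v ++ u.take n ++ u.drop n := by
    rw [List.append_assoc, List.take_append_drop]
  rw [e1, List.append_assoc (v ++ u.take n), h2, h3, List.append_assoc]

theorem depth_append {v : List X} {n : ℕ} (h : DepthAt g v n) (u : List X) :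
    DepthAt g (v ++ u) n := by
  intro u' w hu'
  have h1 := depth_mono h (Nat.le_add_left n u.length) (u ++ u') w (by
    rw [List.length_append, hu'])
  rw [List.append_assoc v u u']
  exact h1

theorem depth_unif (hg : IsTree g) (hf : (Sections g).Finite) :
    ∃ k, ∀ v n, DepthAt g v n → DepthAt g v k := by
  have h1 : ∀ h : List X → List X, ∃ n, (∃ n, Dp h n) → Dp h n := by
    intro h
    by_cases h2 : ∃ n, Dp h n
    · obtain ⟨n, hn⟩ := h2
      exact ⟨n, fun _ => hn⟩
    · exact ⟨0, fun h3 => absurd h3 h2⟩
  choose nn hnn using h1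
  refine ⟨hf.toFinset.sup nn, fun v n h => ?_⟩
  have h2 := (depth_iff hg v n).1 h
  have h3 := hnn _ ⟨n, h2⟩
  have h4 := (depth_iff hg v _).2 h3
  exact depth_mono h4 (Finset.le_sup (f := nn) (hf.mem_toFinset.2 (sec_mem hg v)))

/-- words below which `g` has infinite depth -/
def Inf (g : Equiv.Perm (List X)) (v : List X) : Prop := ∀ n, ¬ DepthAt g v n

theorem child (hg : IsTree g) (hf : (Sections g).Finite) {v : List X} (hv : Inf g v) :
    ∃ x, Inf g (v ++ [x]) := by
  obtain ⟨k, hk⟩ := depth_unif hg hf
  by_contra hcon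
  push Not at hcon
  apply hv (k + 1)
  intro u w hu
  rcases u with _ | ⟨x, u⟩
  · simp at hu
  · have h1 := hcon x
    unfold Inf at h1
    push Not at h1
    obtain ⟨n, hn⟩ := h1
    have h2 := hk _ _ hn u w (by simpa using hu)
    have e1 : v ++ (x :: u) = v ++ [x] ++ u := by simp
    rw [e1]
    exact h2

theorem active {v : List X} (hv : Inf g v) : ∃ w, g (v ++ w) ≠ g v ++ w := by
  by_contra hcon
  push Not at hcon
  apply hv 0
  intro u w hu
  have hu0 : u = [] := List.length_eq_zero_iff.1 hu
  subst hu0
  rw [List.append_nil]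
  exact hcon w

end

section

variable {X : Type} (ch : List X → X)

/-- extension of a word by chosen letters -/
def ex : ℕ → List X → List X
  | 0, v => v
  | m + 1, v => ex m v ++ [ch (ex m v)]

theorem ex_length (m : ℕ) (v : List X) : (ex ch m v).length = v.length + m := by
  induction m with
  | zero => rfl
  | succ m ih =>
    show (ex ch m v ++ [ch (ex ch m v)]).length = _
    rw [List.length_append, ih]
    rfl

theorem ex_prefix {m m' : ℕ} (h : m ≤ m') (v : List X) : ex ch m v <+: ex ch m' v := by
  induction m', h using Nat.le_induction with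
  | base => exact List.prefix_rfl
  | succ m' _ ih => exact ih.trans (List.prefix_append _ _)

/-- the ray through a word -/
def ray (v : List X) (i : ℕ) : X :=
  (ex ch (i + 1) v)[i]'(by rw [ex_length]; omega)

theorem ex_get (m : ℕ) (v : List X) (i : ℕ) (hi : i < (ex ch m v).length) :
    (ex ch m v)[i] = ray ch v i := by
  unfold ray
  have h1 : i < (ex ch (i + 1) v).length := by rw [ex_length]; omega
  have e1 := (ex_prefix ch (le_max_left m (i + 1)) v).getElem hi
  have e2 := (ex_prefix ch (le_max_right m (i + 1)) v).getElem h1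
  rw [e1, e2]

theorem ex_onRay (m : ℕ) (v : List X) : OnRay (ray ch v) (ex ch m v) := by
  unfold OnRay
  apply List.ext_getElem
  · rw [List.length_ofFn]
  · intro i h1 h2
    rw [List.getElem_ofFn]
    exact ex_get ch m v i h1

theorem onRay_prefix {ρ : ℕ → X} {v w : List X} (h : v <+: w) (hw : OnRay ρ w) : OnRay ρ v := by
  unfold OnRay at hw ⊢
  apply List.ext_getElem
  · rw [List.length_ofFn]
  · intro i h1 h2
    rw [List.getElem_ofFn, h.getElem h1]
    have h3 : i < w.length := h1.trans_le h.length_le
    have h4 : w[i] = (List.ofFn fun i : Fin w.length => ρ i)[i]'(by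
        rw [List.length_ofFn]; exact h3) := by
      congr 1
    rw [h4, List.getElem_ofFn]

end

theorem t_aut : S_AUT := by
  classical
  intro X _ g hg hf hb
  obtain ⟨k, hk⟩ := depth_unif hg hf
  by_cases hne : ∃ v, Inf g v
  · obtain ⟨v₀, hv₀⟩ := hne
    obtain ⟨x₀, -⟩ := child hg hf hv₀
    have h1 : ∀ v : List X, ∃ x, Inf g v → Inf g (v ++ [x]) := by
      intro v
      by_cases hv : Inf g v
      · obtain ⟨x, hx⟩ := child hg hf hv
        exact ⟨x, fun _ => hx⟩
      · exact ⟨x₀, fun h => absurd h hv⟩
    choose ch hch using h1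
    have hex : ∀ m v, Inf g v → Inf g (ex ch m v) := by
      intro m v hv
      induction m with
      | zero => exact hv
      | succ m ih => exact hch _ ih
    -- the number of words of length `n`
    let Nn : ℕ → Set (List X) := fun n => {v | v.length = n ∧ Inf g v}
    have hfin : ∀ n, {v : List X | v.length = n}.Finite := fun n => List.finite_length_eq X n
    have hNfin : ∀ n, (Nn n).Finite := fun n => (hfin n).subset fun v hv => hv.1
    obtain ⟨c, hc⟩ := hb
    have hNc : ∀ n, (Nn n).ncard ≤ c := by
      intro n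
      refine le_trans (Set.ncard_le_ncard ?_ ((hfin n).subset fun v hv => hv.1)) (hc n)
      intro v hv
      exact ⟨hv.1, active hv.2⟩
    have hbd : BddAbove (Set.range fun n => (Nn n).ncard) := by
      refine ⟨c, ?_⟩
      rintro _ ⟨n, rfl⟩
      exact hNc n
    obtain ⟨n₀, hn₀⟩ := Nat.sSup_mem (Set.range_nonempty fun n => (Nn n).ncard) hbd
    have hmax : ∀ n, (Nn n).ncard ≤ (Nn n₀).ncard := by
      intro n
      have h2 := le_csSup hbd (Set.mem_range_self (f := fun n => (Nn n).ncard) n)
      rw [← hn₀] at h2
      exact h2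
    have hsurj : ∀ m v, v ∈ Nn (n₀ + m) → ∃ v' ∈ Nn n₀, ex ch m v' = v := by
      intro m v hv
      have hsub : ex ch m '' Nn n₀ ⊆ Nn (n₀ + m) := by
        rintro _ ⟨w, hw, rfl⟩
        exact ⟨by rw [ex_length, hw.1], hex m w hw.2⟩
      have hinj : Set.InjOn (ex ch m) (Nn n₀) := by
        intro a ha b hb hab
        have e1 : a <+: ex ch m a := ex_prefix ch (Nat.zero_le m) a
        have e2 : b <+: ex ch m a := by
          rw [hab]
          exact ex_prefix ch (Nat.zero_le m) b
        have e3 := List.prefix_of_prefix_length_le e1 e2 (by rw [ha.1, hb.1])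
        exact e3.eq_of_length (by rw [ha.1, hb.1])
      have heq : ex ch m '' Nn n₀ = Nn (n₀ + m) := by
        apply Set.eq_of_subset_of_ncard_le hsub _ (hNfin _)
        rw [hinj.ncard_image]
        exact hmax _
      rw [← heq] at hv
      exact hv
    refine ⟨(hNfin n₀).toFinset.image (ray ch), k, fun v hv => ?_⟩
    have hnot : ¬ Inf g v := by
      intro hinf
      rcases le_total n₀ v.length with hle | hle
      · obtain ⟨v', hv', he⟩ := hsurj (v.length - n₀) v ⟨by omega, hinf⟩
        apply hv (ray ch v') (Finset.mem_image_of_mem _ ((hNfin n₀).mem_toFinset.2 hv'))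
        rw [← he]
        exact ex_onRay ch _ _
      · have hv' : ex ch (n₀ - v.length) v ∈ Nn n₀ :=
          ⟨by rw [ex_length]; omega, hex _ _ hinf⟩
        apply hv _ (Finset.mem_image_of_mem (ray ch) ((hNfin n₀).mem_toFinset.2 hv'))
        exact onRay_prefix (ex_prefix ch (Nat.zero_le _) v) (ex_onRay ch 0 _)
    unfold Inf at hnot
    push Not at hnot
    obtain ⟨n, hn⟩ := hnot
    exact hk _ _ hn
  · refine ⟨∅, k, fun v _ => ?_⟩
    have hnot : ¬ Inf g v := fun h => hne ⟨v, h⟩
    unfold Inf at hnot
    push Not at hnot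
    obtain ⟨n, hn⟩ := hnot
    exact hk _ _ hn

end Pool.Agent.Y708.SS
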